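import Pool.Agent.H73.GWQ.Stmts

set_option autoImplicit false

open Classical

namespace GWQ

theorem nm_inv48 {G V : Type*} [Group G] (D : QM G V) (g : G) : D.nm g⁻¹ = D.nm g := by
  unfold QM.nm
  have h := D.inv g 1 g⁻¹
  rw [mul_one, mul_inv_cancel] at h
  rw [← h, D.comm]

theorem B1Q {G V : Type*} [Group G] (D : QM G V) : B1QStmt D := by
  intro a b k h
  refine ⟨⟨h.hδ, h.k_pos, ?_, ?_, ?_, ?_⟩, ⟨h.hδ, h.k_pos, ?_, ?_, ?_, ?_⟩⟩
  · intro x hx y hy
    have hx' : x⁻¹ ∈ ({a, b} : Set G) := by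
      rcases hx with rfl | hx
      · left; exact inv_inv a
      · right; rw [Set.mem_singleton_iff] at hx ⊢; rw [hx, inv_inv]
    have hy' : y⁻¹ ∈ ({a, b} : Set G) := by
      rcases hy with rfl | hy
      · left; exact inv_inv a
      · right; rw [Set.mem_singleton_iff] at hy ⊢; rw [hy, inv_inv]
    have h1 := h.mul y⁻¹ hy' x⁻¹ hx'
    rw [nm_inv48, nm_inv48, ← mul_inv_rev, nm_inv48] at h1
    omega
  · rw [nm_inv48, nm_inv48]; exact h.div'
  · rw [nm_inv48, nm_inv48, inv_inv, inv_inv]; exact h.div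
  · intro x hx
    rcases hx with rfl | hx
    · rw [nm_inv48]; exact h.long a (Set.mem_insert _ _)
    · rw [Set.mem_singleton_iff] at hx
      rw [hx, nm_inv48]; exact h.long b (Set.mem_insert_of_mem _ rfl)
  · intro x hx y hy
    exact h.mul x (by rw [Set.pair_comm]; exact hx) y (by rw [Set.pair_comm]; exact hy)
  · rw [D.comm b a, add_comm]; exact h.div
  · rw [D.comm b⁻¹ a⁻¹, add_comm]; exact h.div'
  · intro x hx
    exact h.long x (by rw [Set.pair_comm]; exact hx)

end GWQ
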